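import Pool.Agent.H71.FX.Targets2

/-! Board fxm_modules, row FA: existential quantifiers at the beginning. -/

set_option autoImplicit false

namespace Pool.Agent.H68.FX

open Pool.Agent.H71.FX Pool.Agent.H71.PF

theorem fa_aux (α : Type) (f : ℕ → List α → α) (R : ℕ → List α → Prop) (φ : QF) (π : List Bool)
    (a : ℕ) : ∀ (k : ℕ) (v : ℕ → α), (Pre f R φ (List.replicate a false ++ π) k v ↔
      ∃ c : ℕ → α, (∀ i, i < k ∨ k + a ≤ i → c i = v i) ∧ Pre f R φ π (k + a) c) := by
  induction a with
  | zero =>
    intro k v
    rw [List.replicate_zero, List.nil_append, Nat.add_zero]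
    constructor
    · intro h
      exact ⟨v, fun _ _ => rfl, h⟩
    · rintro ⟨c, hc, h⟩
      have hcv : c = v := funext fun i => hc i (lt_or_ge i k)
      rwa [hcv] at h
  | succ a ih =>
    intro k v
    rw [List.replicate_succ, List.cons_append]
    have e : k + 1 + a = k + (a + 1) := by omega
    constructor
    · rintro ⟨x, hx⟩
      obtain ⟨c, hc, h⟩ := (ih (k + 1) (Function.update v k x)).1 hx
      rw [e] at h
      refine ⟨c, fun i hi => ?_, h⟩
      have hik : i ≠ k := by omega
      rw [hc i (by omega), Function.update_of_ne hik]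
    · rintro ⟨c, hc, h⟩
      refine ⟨c k, (ih (k + 1) (Function.update v k (c k))).2 ⟨c, fun i hi => ?_, ?_⟩⟩
      · by_cases hik : i = k
        · rw [hik, Function.update_self]
        · rw [Function.update_of_ne hik]
          exact hc i (by omega)
      · rw [e]
        exact h

theorem pf_FA : T_FA := by
  intro α f R φ a π v
  rw [fa_aux α f R φ π a 0 v, Nat.zero_add]
  constructor
  · rintro ⟨c, hc, h⟩
    exact ⟨c, fun i hi => hc i (Or.inr hi), h⟩
  · rintro ⟨c, hc, h⟩
    refine ⟨c, fun i hi => ?_, h⟩
    rcases hi with hi | hi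
    · exact absurd hi (Nat.not_lt_zero i)
    · exact hc i hi

end Pool.Agent.H68.FX
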