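import Pool.Agent.H71.FX.Targets2

/-! Board fxm_modules, row SS: embeddings. -/

set_option autoImplicit false

namespace Pool.Agent.H68.FX

open Pool.Agent.H71.FX Pool.Agent.H71.PF

theorem ss_val (α β : Type) (h : α → β) (f : ℕ → List α → α) (f' : ℕ → List β → β)
    (F : ℕ → ℕ → Prop) (hf : ∀ i l, F i l.length → f' i (l.map h) = h (f i l)) (v : ℕ → α) :
    ∀ t : Tm, t.Voc F → t.val f' (fun x => h (v x)) = h (t.val f v) := by
  intro t
  induction t with
  | var x => intro _; rfl
  | @app i k ts ih =>
    intro hv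
    have hv' : F i k ∧ ∀ j, (ts j).Voc F := hv
    have h1 : (List.ofFn fun j => (ts j).val f' (fun x => h (v x))) =
        (List.ofFn fun j => (ts j).val f v).map h := by
      rw [List.map_ofFn]
      congr 1
      funext j
      exact ih j (hv'.2 j)
    show f' i (List.ofFn fun j => (ts j).val f' (fun x => h (v x))) =
      h (f i (List.ofFn fun j => (ts j).val f v))
    rw [h1]
    exact hf i _ (by rw [List.length_ofFn]; exact hv'.1)

theorem pf_SS : T_SS := by
  intro α β h hinj f f' R R' F r hf hR φ
  induction φ with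
  | rel i ts =>
    intro hv v
    have hv' : 1 ≤ ts.length ∧ ts.length ≤ r ∧ ∀ t ∈ ts, t.Voc F := hv
    show R' i (ts.map (Tm.val f' (fun x => h (v x)))) ↔ R i (ts.map (Tm.val f v))
    have h1 : ts.map (Tm.val f' (fun x => h (v x))) = (ts.map (Tm.val f v)).map h := by
      rw [List.map_map]
      refine List.map_congr_left fun t ht => ?_
      exact ss_val α β h f f' F hf v t (hv'.2.2 t ht)
    rw [h1]
    exact hR i _ (by rw [List.length_map]; exact hv'.1) (by rw [List.length_map]; exact hv'.2.1)
  | eq s t =>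
    intro hv v
    have hv' : s.Voc F ∧ t.Voc F := hv
    show s.val f' (fun x => h (v x)) = t.val f' (fun x => h (v x)) ↔ s.val f v = t.val f v
    rw [ss_val α β h f f' F hf v s hv'.1, ss_val α β h f f' F hf v t hv'.2]
    exact hinj.eq_iff
  | neg φ ih =>
    intro hv v
    exact not_congr (ih hv v)
  | and φ ψ ih1 ih2 =>
    intro hv v
    exact and_congr (ih1 hv.1 v) (ih2 hv.2 v)

end Pool.Agent.H68.FX
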